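import Pool.Agent.P.MP_0cc29c_co.Moore

/-! In a Moore graph of degree 57 the derangements between the blocks of the second
neighbourhood of a vertex generate a primitive group all of whose non-trivial subdegrees are
multiples of five. -/

open Finset Pool.Agent.Moore57

namespace Pool.Agent.Results.MP_0cc29c_co.Holonomy

/-- The block below `u` with respect to the root `v`: the neighbours of `u` other than `v`. -/
abbrev Block {V : Type*} (G : SimpleGraph V) (v u : V) : Type _ := {x : V // G.Adj u x ∧ x ≠ v}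

/-- The group generated by the permutations `σ` of the block below `u` for which there are
neighbours `a`, `b` of `v` such that every `x` is joined to `σ x` by a path `x, y, z, σ x` with
`y` adjacent to `a` and `z` adjacent to `b`. -/
def holonomy {V : Type*} (G : SimpleGraph V) (v u : V) : Subgroup (Equiv.Perm (Block G v u)) :=
  Subgroup.closure {σ | ∃ a b : V, G.Adj v a ∧ G.Adj v b ∧ ∀ x : Block G v u, ∃ y z : V,
    G.Adj a y ∧ G.Adj b z ∧ G.Adj x.1 y ∧ G.Adj y z ∧ G.Adj z (σ x).1}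

/-- The orbit of `y` under the stabiliser of `x` in the permutation group `H`. -/
def suborbit {X : Type*} (H : Subgroup (Equiv.Perm X)) (x y : X) : Set X :=
  {z | ∃ σ ∈ H, σ x = x ∧ σ y = z}

section

variable {V : Type*} {G : SimpleGraph V} {v u : V}

theorem not_adj_root (h : IsMoore G) {a w : V} (ha : G.Adj v a) (hw : G.Adj a w) :
    ¬ G.Adj v w := fun e => h.notri v a w ha hw e

theorem exists_lift (h : IsMoore G) (hu : G.Adj v u) {a : V} (ha : G.Adj v a) (x : Block G v u) :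
    ∃ w, G.Adj a w ∧ w ≠ v ∧ ((a = u ∧ w = x.1) ∨ (a ≠ u ∧ G.Adj x.1 w)) := by
  by_cases e : a = u
  · subst e
    exact ⟨x.1, x.2.1, x.2.2, Or.inl ⟨rfl, rfl⟩⟩
  · have hx := not_adj_root h hu x.2.1
    have h1 : a ≠ x.1 := fun e' => hx (e' ▸ ha)
    have h2 : ¬ G.Adj a x.1 := fun e' =>
      e (h.unc v x.1 a u x.2.2.symm ha e'.symm hu x.2.1.symm)
    obtain ⟨w, w1, w2⟩ := h.exc a x.1 h1 h2
    exact ⟨w, w1, fun e' => hx (e' ▸ w2.symm), Or.inr ⟨e, w2⟩⟩

/-- The matching structure on the blocks. -/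
theorem exists_model [Finite V] (h : IsMoore G) (hu : G.Adj v u) :
    ∃ (l : G.neighborSet v → Block G v u → V)
      (π : G.neighborSet v → G.neighborSet v → Equiv.Perm (Block G v u)),
      (∀ a x, G.Adj a.1 (l a x) ∧ l a x ≠ v) ∧
      (∀ a x b y, l a x = l b y → a = b ∧ x = y) ∧
      (∀ w, w ≠ v → ¬ G.Adj v w → ∃ a x, l a x = w) ∧
      (∀ a b x y, a ≠ b → (G.Adj (l a x) (l b y) ↔ π a b x = y)) ∧
      (∀ a, π a a = 1) ∧ (∀ b, π ⟨u, hu⟩ b = 1) ∧ ∀ a b, π a b ∈ holonomy G v u := by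
  classical
  choose l l1 l2 l3 using fun (a : G.neighborSet v) (x : Block G v u) => exists_lift h hu a.2 x
  have par : ∀ a x b y, l a x = l b y → a = b := fun a x b y e =>
    Subtype.ext (h.unc v (l a x) a.1 b.1 (l2 a x).symm a.2 (l1 a x).symm b.2 (e ▸ (l1 b y).symm))
  have linj : ∀ a x y, l a x = l a y → x = y := by
    intro a x y e
    rcases l3 a x with ⟨e1, e2⟩ | ⟨e1, e2⟩ <;> rcases l3 a y with ⟨f1, f2⟩ | ⟨f1, f2⟩
    · exact Subtype.ext (by rw [← e2, ← f2, e])
    · exact absurd e1 f1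
    · exact absurd f1 e1
    · have hne : u ≠ l a x := fun e' => not_adj_root h a.2 (l1 a x) (e' ▸ hu)
      exact Subtype.ext (h.unc u (l a x) x.1 y.1 hne x.2.1 e2.symm y.2.1 (e ▸ f2.symm))
  have lsurj : ∀ (a : G.neighborSet v) w, G.Adj a.1 w → w ≠ v → ∃ x, l a x = w := by
    intro a w hw hwv
    by_cases e : a.1 = u
    · refine ⟨⟨w, e ▸ hw, hwv⟩, ?_⟩
      rcases l3 a ⟨w, e ▸ hw, hwv⟩ with ⟨-, e2⟩ | ⟨e1, -⟩
      · exact e2
      · exact absurd e e1
    · have hw' := not_adj_root h a.2 hw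
      have h1 : u ≠ w := fun e' => hw' (e' ▸ hu)
      have h2 : ¬ G.Adj u w := fun e' => e (h.unc v w a.1 u hwv.symm a.2 hw.symm hu e'.symm)
      obtain ⟨x, x1, x2⟩ := h.exc u w h1 h2
      have x3 : x ≠ v := fun e' => hw' (e' ▸ x2.symm)
      refine ⟨⟨x, x1, x3⟩, ?_⟩
      rcases l3 a ⟨x, x1, x3⟩ with ⟨e1, -⟩ | ⟨-, e2⟩
      · exact absurd e1 e
      · have hax : a.1 ≠ x := fun e' => not_adj_root h hu x1 (e' ▸ a.2)
        exact h.unc a.1 x _ w hax (l1 a _) e2 hw x2.symm
  have step : ∀ a b, a ≠ b → ∀ x, ∃ y, G.Adj (l a x) (l b y) := by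
    intro a b hab x
    have hw' := not_adj_root h a.2 (l1 a x)
    have h1 : b.1 ≠ l a x := fun e' => hw' (e' ▸ b.2)
    have h2 : ¬ G.Adj b.1 (l a x) := fun e' =>
      hab (Subtype.ext (h.unc v _ a.1 b.1 (l2 a x).symm a.2 (l1 a x).symm b.2 e'.symm))
    obtain ⟨t, t1, t2⟩ := h.exc _ _ h1 h2
    obtain ⟨y, rfl⟩ := lsurj b t t1 fun e' => hw' (e' ▸ t2.symm)
    exact ⟨y, t2⟩
  have stepu : ∀ a b x y y', G.Adj (l a x) (l b y) → G.Adj (l a x) (l b y') → y = y' := by
    intro a b x y y' e e'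
    have h1 : b.1 ≠ l a x := fun f => not_adj_root h a.2 (l1 a x) (f ▸ b.2)
    exact linj b y y' (h.unc _ _ _ _ h1 (l1 b y) e (l1 b y') e')
  have perm : ∀ a b, a ≠ b → ∃ σ : Equiv.Perm (Block G v u),
      ∀ x y, G.Adj (l a x) (l b y) ↔ σ x = y := by
    intro a b hab
    choose f hf using step a b hab
    have finj : Function.Injective f := fun x x' e =>
      stepu b a (f x) x x' (hf x).symm (e ▸ (hf x').symm)
    refine ⟨Equiv.ofBijective f (Finite.injective_iff_bijective.mp finj), fun x y => ⟨fun e => ?_,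
      fun e => ?_⟩⟩
    · exact stepu a b x _ _ (hf x) e
    · exact e ▸ hf x
  choose σ hσ using perm
  have base : ∀ b (hb : (⟨u, hu⟩ : G.neighborSet v) ≠ b) x, G.Adj (l ⟨u, hu⟩ x) (l b x) := by
    intro b hb x
    rcases l3 ⟨u, hu⟩ x with ⟨-, e2⟩ | ⟨e1, -⟩
    · rcases l3 b x with ⟨f1, -⟩ | ⟨-, f2⟩
      · exact absurd (Subtype.ext f1.symm) hb
      · rw [e2]
        exact f2
    · exact absurd rfl e1
  refine ⟨l, fun a b => if hab : a = b then 1 else σ a b hab, fun a x => ⟨l1 a x, l2 a x⟩,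
    fun a x b y e => ?_, fun w h1 h2 => ?_, fun a b x y hab => ?_, fun a => by simp,
    fun b => ?_, fun a b => ?_⟩
  · obtain rfl := par a x b y e
    exact ⟨rfl, linj a x y e⟩
  · obtain ⟨a, a1, a2⟩ := h.exc v w h1.symm h2
    exact ⟨⟨a, a1⟩, lsurj ⟨a, a1⟩ w a2.symm h1⟩
  · simp only [dif_neg hab, hσ a b hab]
  · by_cases hb : (⟨u, hu⟩ : G.neighborSet v) = b
    · simp only [dif_pos hb]
    · simp only [dif_neg hb]
      ext1 x
      exact (hσ _ b hb x x).mp (base b hb x)
  · by_cases hab : a = b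
    · simp only [dif_pos hab]
      exact one_mem _
    simp only [dif_neg hab]
    by_cases ha : (⟨u, hu⟩ : G.neighborSet v) = a
    · subst ha
      have : σ _ b hab = 1 := by
        ext1 x
        exact (hσ _ b hab x x).mp (base b hab x)
      rw [this]
      exact one_mem _
    by_cases hb : (⟨u, hu⟩ : G.neighborSet v) = b
    · subst hb
      have : σ a _ hab = 1 := by
        ext1 x
        exact (hσ a _ hab x x).mp (base a ha x).symm
      rw [this]
      exact one_mem _
    refine Subgroup.subset_closure ⟨a.1, b.1, a.2, b.2, fun x => ⟨l a x, l b (σ a b hab x),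
      l1 a x, l1 b _, ?_, (hσ a b hab x _).mpr rfl, ?_⟩⟩
    · rcases l3 a x with ⟨e1, -⟩ | ⟨-, e2⟩
      · exact absurd (Subtype.ext e1.symm) ha
      · exact e2
    · rcases l3 b (σ a b hab x) with ⟨e1, -⟩ | ⟨-, e2⟩
      · exact absurd (Subtype.ext e1.symm) hb
      · exact e2.symm

end

theorem result {V : Type*} [Fintype V] (G : SimpleGraph V) [DecidableRel G.Adj]
    (hreg : G.IsRegularOfDegree 57) (hdiam : G.ediam = 2) (hcard : Fintype.card V = 3250)
    (v u : V) (hu : G.Adj v u) :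
    MulAction.IsPreprimitive (holonomy G v u) (Block G v u) ∧
      ∀ x y : Block G v u, x ≠ y → 5 ∣ (suborbit (holonomy G v u) x y).ncard := by
  classical
  have h := isMoore G hreg hdiam hcard
  obtain ⟨l, π, l1, linj, lsurj, hπ, π1, πu, πH⟩ := exists_model h hu
  have cN : Fintype.card (G.neighborSet v) = 57 := by
    rw [SimpleGraph.card_neighborSet_eq_degree, hreg.degree_eq]
  have cB : Fintype.card (Block G v u) = 56 := by
    rw [Fintype.card_subtype]
    have : (univ.filter fun x => G.Adj u x ∧ x ≠ v) = (G.neighborFinset u).erase v := by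
      ext x
      simp [and_comm]
    rw [this, card_erase_of_mem (by simpa using hu.symm),
      SimpleGraph.card_neighborFinset_eq_degree, hreg.degree_eq]
  have hinv : ∀ a b x, π b a (π a b x) = x := by
    intro a b x
    by_cases hab : a = b
    · subst hab
      simp [π1]
    · exact (hπ b a _ _ (Ne.symm hab)).mp ((hπ a b x _ hab).mpr rfl).symm
  have hsh : ∀ a c x z, a ≠ c →
      (univ.filter fun b => b ≠ a ∧ b ≠ c ∧ π b c (π a b x) = z).card +
        (if π a c x = z then 1 else 0) = 1 := by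
    intro a c x z hac
    have hne : l a x ≠ l c z := fun e => hac (linj _ _ _ _ e).1
    by_cases e : π a c x = z
    · rw [if_pos e, card_eq_zero.mpr]
      refine filter_eq_empty_iff.mpr fun b _ ⟨b1, b2, b3⟩ => ?_
      exact h.notri _ _ _ ((hπ a b x _ b1.symm).mpr rfl) ((hπ b c _ _ b2).mpr b3)
        ((hπ a c x z hac).mpr e)
    · rw [if_neg e, add_zero, card_eq_one]
      obtain ⟨t, t1, t2⟩ := h.exc _ _ hne fun f => e ((hπ a c x z hac).mp f)
      have t3 : t ≠ v := fun f => not_adj_root h a.2 (l1 a x).1 (f ▸ t1.symm)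
      have t4 : ¬ G.Adj v t := by
        intro f
        have e1 := h.unc v _ a.1 t (l1 a x).2.symm a.2 (l1 a x).1.symm f t1
        have e2 := h.unc v _ c.1 t (l1 c z).2.symm c.2 (l1 c z).1.symm f t2
        exact hac (Subtype.ext (e1.trans e2.symm))
      obtain ⟨b, y, rfl⟩ := lsurj t t3 t4
      have b1 : b ≠ a := fun f => h.notri _ _ _ (l1 a x).1 t1 (f ▸ (l1 b y).1)
      have b2 : b ≠ c := fun f => h.notri _ _ _ (l1 c z).1 t2 (f ▸ (l1 b y).1)
      refine ⟨b, eq_singleton_iff_unique_mem.mpr ⟨?_, fun b' hb' => ?_⟩⟩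
      · simp only [mem_filter, mem_univ, true_and]
        refine ⟨b1, b2, ?_⟩
        rw [(hπ a b x y b1.symm).mp t1]
        exact (hπ b c y z b2).mp t2.symm
      · simp only [mem_filter, mem_univ, true_and] at hb'
        exact (linj _ _ _ _ (h.unc _ _ _ _ hne ((hπ a b' x _ hb'.1.symm).mpr rfl)
          ((hπ b' c _ _ hb'.2.1).mpr hb'.2.2).symm t1 t2)).1
  have trans : MulAction.IsPretransitive (holonomy G v u) (Block G v u) := by
    refine ⟨fun x z => ?_⟩
    by_cases e : x = z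
    · exact ⟨1, by simp [e]⟩
    obtain ⟨c, hc⟩ : ∃ c : G.neighborSet v, c ≠ ⟨u, hu⟩ :=
      Fintype.exists_ne_of_one_lt_card (by omega) _
    have := hsh ⟨u, hu⟩ c x z hc.symm
    rw [πu, if_neg (by simpa using e), add_zero, card_eq_one] at this
    obtain ⟨b, hb⟩ := this
    have hb' := hb ▸ mem_singleton_self b
    simp only [mem_filter, πu] at hb'
    exact ⟨⟨π b c, πH b c⟩, hb'.2.2.2⟩
  have key : ∀ R : Block G v u → Block G v u → Prop, (∀ x, ¬ R x x) →
      (∀ (g : holonomy G v u) x y, R x y → R (g • x) (g • y)) →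
      ∀ x, 5 ∣ {y | R x y}.ncard := by
    intro R hirr hR x
    have hR' : ∀ (g : holonomy G v u) x y, R (g • x) (g • y) ↔ R x y := fun g x y =>
      ⟨fun e => by simpa using hR g⁻¹ _ _ e, hR g x y⟩
    refine five_dvd cN cB π hinv hsh R hirr (fun a b x y => hR' ⟨π a b, πH a b⟩ x y) _
      fun x' => ?_
    obtain ⟨g, rfl⟩ := MulAction.exists_smul_eq (holonomy G v u) x x'
    rw [Set.ncard_eq_toFinset_card', Set.toFinset_setOf]
    symm
    refine card_bij (fun y _ => g • y) (fun y hy => ?_) (fun y _ y' _ e => ?_) fun y hy => ?_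
    · simp only [mem_filter, mem_univ, true_and] at hy ⊢
      exact hR g x y hy
    · exact smul_left_cancel g e
    · simp only [mem_filter, mem_univ, true_and] at hy ⊢
      exact ⟨g⁻¹ • y, by simpa using hR g⁻¹ _ _ hy, by simp⟩
  refine ⟨{ trans with isTrivialBlock_of_isBlock := fun {C} hC => ?_ }, fun x y hxy => ?_⟩
  · rcases C.eq_empty_or_nonempty with rfl | ⟨x, hx⟩
    · exact Or.inl Set.subsingleton_empty
    have h5 := key (fun x' y' => x' ≠ y' ∧ ∃ g : holonomy G v u, g • x' ∈ C ∧ g • y' ∈ C)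
      (fun _ e => e.1 rfl) (fun g x' y' ⟨e1, g', e2, e3⟩ =>
        ⟨fun e => e1 (smul_left_cancel g e), g' * g⁻¹, by simpa [mul_smul] using e2,
          by simpa [mul_smul] using e3⟩) x
    have e : {y' | x ≠ y' ∧ ∃ g : holonomy G v u, g • x ∈ C ∧ g • y' ∈ C} = C \ {x} := by
      ext y'
      simp only [Set.mem_setOf_eq, Set.mem_diff, Set.mem_singleton_iff]
      refine ⟨fun ⟨e1, g, e2, e3⟩ => ⟨?_, fun f => e1 f.symm⟩,
        fun ⟨e1, e2⟩ => ⟨fun f => e2 f.symm, 1, by simpa using hx, by simpa using e1⟩⟩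
      rwa [← hC.smul_eq_of_mem hx e2, Set.smul_mem_smul_set_iff] at e3
    rw [e, Set.ncard_diff_singleton_of_mem hx] at h5
    have hd := hC.ncard_dvd_card ⟨x, hx⟩
    rw [Nat.card_eq_fintype_card, cB] at hd
    have hpos : 0 < C.ncard := (Set.ncard_pos (Set.toFinite C)).mpr ⟨x, hx⟩
    have hle := Nat.le_of_dvd (by norm_num) hd
    have hc : C.ncard = 1 ∨ C.ncard = 56 := by
      generalize C.ncard = m at *
      interval_cases m <;> omega
    rcases hc with hc | hc
    · exact Or.inl (Set.ncard_le_one_iff_subsingleton.mp hc.le)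
    · exact Or.inr ((Set.eq_univ_iff_ncard C).mpr (by rw [hc, Nat.card_eq_fintype_card, cB]))
  · have h5 := key (fun x' y' => ∃ g : holonomy G v u, g • x = x' ∧ g • y = y')
      (fun _ ⟨g, e1, e2⟩ => hxy (smul_left_cancel g (e1.trans e2.symm)))
      (fun g x' y' ⟨g', e1, e2⟩ => ⟨g * g', by rw [mul_smul, e1], by rw [mul_smul, e2]⟩) x
    have e : {y' | ∃ g : holonomy G v u, g • x = x ∧ g • y = y'} =
        suborbit (holonomy G v u) x y := by
      ext y'
      exact ⟨fun ⟨g, e1, e2⟩ => ⟨g.1, g.2, e1, e2⟩, fun ⟨g, hg, e1, e2⟩ => ⟨⟨g, hg⟩, e1, e2⟩⟩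
    rwa [e] at h5

end Pool.Agent.Results.MP_0cc29c_co.Holonomy
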